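import Pool.Agent.H85.KS2.Targets
import Pool.Agent.H33.KS.NI

/-!
# MP_ff41bc_an: the mean value for a pair of shifts, row VM
helper82
-/

set_option autoImplicit false

open scoped BigOperators
open Pool.Agent.H98.KS Pool.Agent.H85.KS2 Pool.Agent.H33.KS

namespace Pool.Agent.H82.KS2

theorem ee_conj (x : ℝ) : (starRingEnd ℂ) (ee x) = ee (-x) := by
  unfold ee
  rw [← Complex.exp_conj]
  congr 1
  have h2 : (starRingEnd ℂ) (2 : ℂ) = 2 := Complex.conj_ofNat 2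
  simp [h2]

theorem ee_norm (x : ℝ) : ‖ee x‖ = 1 := by
  unfold ee
  rw [Complex.norm_exp]
  simp

/-- the power mean inequality with weights of total mass at most `W` -/
theorem pow_mean {ι : Type*} (S : Finset ι) (w a : ι → ℝ) (W : ℝ) (hw : ∀ i ∈ S, 0 ≤ w i)
    (ha : ∀ i ∈ S, 0 ≤ a i) (hW : ∑ i ∈ S, w i ≤ W) (n : ℕ) :
    (∑ i ∈ S, w i * a i) ^ (n + 1) ≤ W ^ n * ∑ i ∈ S, w i * a i ^ (n + 1) := by
  set T : ℝ := ∑ i ∈ S, w i with hT
  have hT0 : 0 ≤ T := Finset.sum_nonneg hw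
  have hW0 : 0 ≤ W := hT0.trans hW
  have hS0 : 0 ≤ ∑ i ∈ S, w i * a i ^ (n + 1) :=
    Finset.sum_nonneg fun i hi => mul_nonneg (hw i hi) (pow_nonneg (ha i hi) _)
  rcases hT0.eq_or_lt with h0 | h0
  · have h1 : ∀ i ∈ S, w i = 0 := by
      have := (Finset.sum_eq_zero_iff_of_nonneg hw).1 (by rw [← hT, ← h0])
      exact this
    have h2 : ∑ i ∈ S, w i * a i = 0 := Finset.sum_eq_zero fun i hi => by rw [h1 i hi, zero_mul]
    rw [h2, zero_pow (Nat.succ_ne_zero n)]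
    exact mul_nonneg (pow_nonneg hW0 _) hS0
  · have h1 := Real.pow_arith_mean_le_arith_mean_pow S (fun i => w i / T) a
      (fun i hi => div_nonneg (hw i hi) hT0)
      (by rw [← Finset.sum_div, ← hT, div_self h0.ne']) ha (n + 1)
    have h2 : ∑ i ∈ S, w i / T * a i = (∑ i ∈ S, w i * a i) / T := by
      rw [Finset.sum_div]
      exact Finset.sum_congr rfl fun i _ => by ring
    have h3 : ∑ i ∈ S, w i / T * a i ^ (n + 1) = (∑ i ∈ S, w i * a i ^ (n + 1)) / T := by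
      rw [Finset.sum_div]
      exact Finset.sum_congr rfl fun i _ => by ring
    rw [h2, h3, div_pow, div_le_div_iff₀ (pow_pos h0 _) h0] at h1
    have h4 : (∑ i ∈ S, w i * a i) ^ (n + 1) ≤ T ^ n * ∑ i ∈ S, w i * a i ^ (n + 1) := by
      have h5 : (∑ i ∈ S, w i * a i) ^ (n + 1) * T
          ≤ (T ^ n * ∑ i ∈ S, w i * a i ^ (n + 1)) * T := by
        calc (∑ i ∈ S, w i * a i) ^ (n + 1) * T
            ≤ (∑ i ∈ S, w i * a i ^ (n + 1)) * T ^ (n + 1) := h1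
          _ = (T ^ n * ∑ i ∈ S, w i * a i ^ (n + 1)) * T := by ring
      exact le_of_mul_le_mul_right h5 h0
    exact h4.trans (mul_le_mul_of_nonneg_right (pow_le_pow_left₀ hT0 hW n) hS0)

/-- one pair of frequencies -/
theorem one_pair (k s L : ℕ) (h h' : ℤ) (η η' : ℝ) :
    ∫ θ in (0 : ℝ)..1, ‖AA k L θ h η‖ ^ (2 * s) * ‖AA k L θ h' η'‖ ^ 2 ≤ NP k s L h h' := by
  classical
  set P : Finset (Fin s → ℤ) := Fintype.piFinset fun _ : Fin s => JJ L with hP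
  have hpow : ∀ θ : ℝ, AA k L θ h η ^ s =
      ∑ x ∈ P, ee (θ * ((∑ i, dl k h (x i) : ℤ) : ℝ) + η * ((∑ i, x i : ℤ) : ℝ)) := by
    intro θ
    have e1 : AA k L θ h η ^ s = ∏ _i : Fin s, AA k L θ h η := by
      rw [Finset.prod_const, Finset.card_univ, Fintype.card_fin]
    rw [e1]
    unfold AA
    rw [Finset.prod_univ_sum]
    refine Finset.sum_congr rfl fun y _ => ?_
    rw [← ee_sum, Finset.sum_add_distrib, ← Finset.mul_sum, ← Finset.mul_sum]
    push_cast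
    rfl
  have hconj : ∀ θ : ℝ, (starRingEnd ℂ) (AA k L θ h η) ^ s =
      ∑ x ∈ P, ee (-(θ * ((∑ i, dl k h (x i) : ℤ) : ℝ) + η * ((∑ i, x i : ℤ) : ℝ))) := by
    intro θ
    rw [← map_pow, hpow, map_sum]
    exact Finset.sum_congr rfl fun x _ => ee_conj _
  have hb' : ∀ θ : ℝ, (starRingEnd ℂ) (AA k L θ h' η') =
      ∑ u ∈ JJ L, ee (-(θ * (dl k h' u : ℝ) + η' * (u : ℝ))) := by
    intro θ
    unfold AA
    rw [map_sum]
    exact Finset.sum_congr rfl fun x _ => ee_conj _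
  set N : (((Fin s → ℤ) × (Fin s → ℤ)) × (ℤ × ℤ)) → ℤ := fun p =>
    (∑ i, dl k h (p.1.1 i) + dl k h' p.2.1) - (∑ i, dl k h (p.1.2 i) + dl k h' p.2.2) with hN
  set Cc : (((Fin s → ℤ) × (Fin s → ℤ)) × (ℤ × ℤ)) → ℝ := fun p =>
    (η * ((∑ i, p.1.1 i : ℤ) : ℝ) + η' * (p.2.1 : ℝ)) -
      (η * ((∑ i, p.1.2 i : ℤ) : ℝ) + η' * (p.2.2 : ℝ)) with hCc
  have hexp : ∀ θ : ℝ, (((‖AA k L θ h η‖ ^ (2 * s) * ‖AA k L θ h' η'‖ ^ 2 : ℝ)) : ℂ) =
      ∑ p ∈ (P ×ˢ P) ×ˢ (JJ L ×ˢ JJ L), ee (θ * (N p : ℝ)) * ee (Cc p) := by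
    intro θ
    have e1 : (((‖AA k L θ h η‖ ^ (2 * s) * ‖AA k L θ h' η'‖ ^ 2 : ℝ)) : ℂ) =
        (AA k L θ h η ^ s * (starRingEnd ℂ) (AA k L θ h η) ^ s) *
          (AA k L θ h' η' * (starRingEnd ℂ) (AA k L θ h' η')) := by
      rw [← mul_pow, Complex.mul_conj, Complex.mul_conj, Complex.normSq_eq_norm_sq,
        Complex.normSq_eq_norm_sq]
      push_cast
      rw [pow_mul]
    rw [e1, hpow, hconj, hb']
    unfold AA
    rw [Finset.sum_mul_sum, Finset.sum_mul_sum, ← Finset.sum_product', ← Finset.sum_product',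
      Finset.sum_mul_sum, ← Finset.sum_product']
    refine Finset.sum_congr rfl fun p _ => ?_
    rw [← ee_add, ← ee_add, ← ee_add, ← ee_add]
    congr 1
    simp only [hN, hCc]
    push_cast
    ring
  have hint : ((∫ θ in (0 : ℝ)..1, ‖AA k L θ h η‖ ^ (2 * s) * ‖AA k L θ h' η'‖ ^ 2 : ℝ) : ℂ) =
      ∑ p ∈ (P ×ˢ P) ×ˢ (JJ L ×ˢ JJ L), (if N p = 0 then 1 else 0) * ee (Cc p) := by
    rw [← intervalIntegral.integral_ofReal]
    simp_rw [hexp]
    rw [intervalIntegral.integral_finsetSum]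
    · refine Finset.sum_congr rfl fun p _ => ?_
      rw [intervalIntegral.integral_mul_const, ee_int]
    · intro p _
      refine Continuous.intervalIntegrable ?_ _ _
      exact (ee_cont.comp (by fun_prop)).mul continuous_const
  have hfin : ‖((∫ θ in (0 : ℝ)..1, ‖AA k L θ h η‖ ^ (2 * s) * ‖AA k L θ h' η'‖ ^ 2 : ℝ) : ℂ)‖ ≤
      NP k s L h h' := by
    rw [hint]
    refine (norm_sum_le _ _).trans ?_
    have e2 : ∀ p ∈ (P ×ˢ P) ×ˢ (JJ L ×ˢ JJ L),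
        ‖(if N p = 0 then (1 : ℂ) else 0) * ee (Cc p)‖ = if N p = 0 then (1 : ℝ) else 0 := by
      intro p _
      rw [norm_mul, ee_norm, mul_one]
      split_ifs <;> simp
    rw [Finset.sum_congr rfl e2, ← Finset.sum_filter, Finset.sum_const, nsmul_eq_mul, mul_one]
    unfold NP
    rw [Nat.cast_le]
    refine Finset.card_le_card ?_
    intro p hp
    rw [Finset.mem_filter] at hp ⊢
    refine ⟨hp.1, ?_⟩
    have := hp.2
    simp only [hN] at this
    linarith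
  rw [Complex.norm_real] at hfin
  exact (le_abs_self _).trans hfin

theorem AA_cont (k L : ℕ) (h : ℤ) (η : ℝ) : Continuous fun θ => AA k L θ h η := by
  unfold AA
  exact continuous_finsetSum _ fun u _ => ee_cont.comp (by fun_prop)

theorem ks2_VM (hWS2 : T_WS2) : T_VM := by
  intro k s L h h' hs hL
  obtain ⟨hw0, hwS⟩ := hWS2 L hL
  set M : Finset ℕ := Finset.range (16 * L + 1) with hM
  set W : ℝ := LG L with hW
  have hW0 : 0 ≤ W := (Finset.sum_nonneg hw0).trans hwS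
  set et : ℕ → ℝ := fun j => (j : ℝ) / (16 * (L : ℝ) + 1) with het
  obtain ⟨t, rfl⟩ : ∃ t, s = t + 1 := ⟨s - 1, by omega⟩
  -- pointwise bound
  have hpt : ∀ θ : ℝ, VV k L θ h ^ (2 * (t + 1)) * VV k L θ h' ^ 2 ≤
      ∑ j ∈ M, ∑ i ∈ M, (W ^ (2 * (t + 1)) * (ww L j * ww L i)) *
        (‖AA k L θ h (et j)‖ ^ (2 * (t + 1)) * ‖AA k L θ h' (et i)‖ ^ 2) := by
    intro θ
    have h1 : VV k L θ h ^ (2 * (t + 1)) ≤
        W ^ (2 * t + 1) * ∑ j ∈ M, ww L j * ‖AA k L θ h (et j)‖ ^ (2 * (t + 1)) :=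
      pow_mean M (ww L) (fun j => ‖AA k L θ h (et j)‖) W hw0 (fun j _ => norm_nonneg _) hwS
        (2 * t + 1)
    have h2 : VV k L θ h' ^ 2 ≤ W ^ 1 * ∑ i ∈ M, ww L i * ‖AA k L θ h' (et i)‖ ^ 2 :=
      pow_mean M (ww L) (fun j => ‖AA k L θ h' (et j)‖) W hw0 (fun j _ => norm_nonneg _) hwS 1
    have h3 : 0 ≤ W ^ (2 * t + 1) * ∑ j ∈ M, ww L j * ‖AA k L θ h (et j)‖ ^ (2 * (t + 1)) :=
      mul_nonneg (pow_nonneg hW0 _) (Finset.sum_nonneg fun j hj =>
        mul_nonneg (hw0 j hj) (by positivity))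
    refine (mul_le_mul h1 h2 (sq_nonneg _) h3).trans (le_of_eq ?_)
    rw [mul_mul_mul_comm, Finset.sum_mul_sum, Finset.mul_sum]
    refine Finset.sum_congr rfl fun j _ => ?_
    rw [Finset.mul_sum]
    refine Finset.sum_congr rfl fun i _ => ?_
    have : W ^ (2 * t + 1) * W ^ 1 = W ^ (2 * (t + 1)) := by
      rw [← pow_add]
      congr 1
    rw [this]
    ring
  have hcV : ∀ g : ℤ, Continuous fun θ => VV k L θ g := by
    intro g
    unfold VV
    exact continuous_finsetSum _ fun j _ => continuous_const.mul (AA_cont k L g _).norm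
  have hcT : ∀ j i : ℕ, Continuous fun θ =>
      (W ^ (2 * (t + 1)) * (ww L j * ww L i)) *
        (‖AA k L θ h (et j)‖ ^ (2 * (t + 1)) * ‖AA k L θ h' (et i)‖ ^ 2) := by
    intro j i
    exact continuous_const.mul (((AA_cont k L h _).norm.pow _).mul ((AA_cont k L h' _).norm.pow _))
  have hcS : Continuous fun θ => ∑ j ∈ M, ∑ i ∈ M, (W ^ (2 * (t + 1)) * (ww L j * ww L i)) *
        (‖AA k L θ h (et j)‖ ^ (2 * (t + 1)) * ‖AA k L θ h' (et i)‖ ^ 2) :=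
    continuous_finsetSum _ fun j _ => continuous_finsetSum _ fun i _ => hcT j i
  have hcL : Continuous fun θ => VV k L θ h ^ (2 * (t + 1)) * VV k L θ h' ^ 2 :=
    ((hcV h).pow (2 * (t + 1))).mul ((hcV h').pow 2)
  have hI := intervalIntegral.integral_mono_on (μ := MeasureTheory.volume)
    (zero_le_one : (0 : ℝ) ≤ 1)
    (hcL.intervalIntegrable 0 1)
    (hcS.intervalIntegrable 0 1) (fun θ _ => hpt θ)
  refine hI.trans ?_
  rw [intervalIntegral.integral_finsetSum (fun j _ =>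
    (continuous_finsetSum _ fun i _ => hcT j i).intervalIntegrable 0 1)]
  have hstep : ∀ j ∈ M, ∫ θ in (0 : ℝ)..1, ∑ i ∈ M, (W ^ (2 * (t + 1)) * (ww L j * ww L i)) *
        (‖AA k L θ h (et j)‖ ^ (2 * (t + 1)) * ‖AA k L θ h' (et i)‖ ^ 2) ≤
      ∑ i ∈ M, (W ^ (2 * (t + 1)) * (ww L j * ww L i)) * (NP k (t + 1) L h h' : ℝ) := by
    intro j hj
    rw [intervalIntegral.integral_finsetSum (fun i _ => (hcT j i).intervalIntegrable 0 1)]
    refine Finset.sum_le_sum fun i hi => ?_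
    rw [intervalIntegral.integral_const_mul]
    exact mul_le_mul_of_nonneg_left (one_pair k (t + 1) L h h' (et j) (et i))
      (mul_nonneg (pow_nonneg hW0 _) (mul_nonneg (hw0 j hj) (hw0 i hi)))
  refine (Finset.sum_le_sum hstep).trans ?_
  have e1 : ∑ j ∈ M, ∑ i ∈ M, (W ^ (2 * (t + 1)) * (ww L j * ww L i)) *
      (NP k (t + 1) L h h' : ℝ) =
      W ^ (2 * (t + 1)) * (NP k (t + 1) L h h' : ℝ) * ((∑ j ∈ M, ww L j) * ∑ i ∈ M, ww L i) := by
    rw [Finset.sum_mul_sum, Finset.mul_sum]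
    refine Finset.sum_congr rfl fun j _ => ?_
    rw [Finset.mul_sum]
    refine Finset.sum_congr rfl fun i _ => ?_
    ring
  rw [e1]
  have h5 : (∑ j ∈ M, ww L j) * ∑ i ∈ M, ww L i ≤ W * W :=
    mul_le_mul hwS hwS (Finset.sum_nonneg hw0) hW0
  have h6 : 0 ≤ W ^ (2 * (t + 1)) * (NP k (t + 1) L h h' : ℝ) :=
    mul_nonneg (pow_nonneg hW0 _) (Nat.cast_nonneg _)
  refine (mul_le_mul_of_nonneg_left h5 h6).trans (le_of_eq ?_)
  ring

end Pool.Agent.H82.KS2
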